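import Pool.Agent.D0H84.NG.Nov

/-! The Hamiltonian vector field. -/

set_option autoImplicit false

open Set Filter Topology Metric Function
open scoped ContDiff RealInnerProductSpace NNReal

noncomputable section

namespace Pool.Agent.D0H84.NG

open Pool.Agent.D0H39.NG

variable {m : ℕ}

/-- the vector which represents a linear form -/
def dualV (L : E m →L[ℝ] ℝ) : E m := ∑ i, L (EuclideanSpace.single i 1) • EuclideanSpace.single i 1

theorem dualV_inner (L : E m →L[ℝ] ℝ) (v : E m) : ⟪dualV L, v⟫ = L v := by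
  unfold dualV
  rw [sum_inner]
  have h1 : v = ∑ i, v i • (EuclideanSpace.single i (1 : ℝ) : E m) := by
    ext j
    simp [Pi.single_apply]
  conv_rhs => rw [h1]
  rw [map_sum]
  refine Finset.sum_congr rfl fun i _ => ?_
  rw [real_inner_smul_left, EuclideanSpace.inner_single_left, ContinuousLinearMap.map_smul]
  simp [mul_comm]

theorem dualV_smooth {V : Type} [NormedAddCommGroup V] [NormedSpace ℝ V] {L : V → E m →L[ℝ] ℝ}
    (hL : ContDiff ℝ ∞ L) : ContDiff ℝ ∞ fun z => dualV (L z) := by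
  unfold dualV
  apply ContDiff.sum
  intro i _
  exact (hL.clm_apply contDiff_const).smul contDiff_const

theorem dualV_zero : dualV (0 : E m →L[ℝ] ℝ) = 0 := by
  simp [dualV]

/-- the form `v ↦ dH (0, v)` -/
def Lu (H : E m × E m → ℝ) (z : E m × E m) : E m →L[ℝ] ℝ :=
  (fderiv ℝ H z).comp (ContinuousLinearMap.inr ℝ (E m) (E m))

/-- the form `b ↦ dH (b, DP(q)[b] p)` -/
def Lg (H : E m × E m → ℝ) (P : E m → E m →L[ℝ] E m) (z : E m × E m) : E m →L[ℝ] ℝ :=
  (fderiv ℝ H z).comp ((ContinuousLinearMap.id ℝ (E m)).prod ((fderiv ℝ P z.1).flip z.2))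

/-- the Hamiltonian vector field -/
def XX (H : E m × E m → ℝ) (P : E m → E m →L[ℝ] E m) (z : E m × E m) : E m × E m :=
  (P z.1 (dualV (Lu H z)),
    fderiv ℝ P z.1 (P z.1 (dualV (Lu H z))) z.2 - P z.1 (dualV (Lg H P z)))

theorem XX_smooth {H : E m × E m → ℝ} {P : E m → E m →L[ℝ] E m} (hH : ContDiff ℝ ∞ H)
    (hP : ContDiff ℝ ∞ P) : ContDiff ℝ ∞ (XX H P) := by
  have hD : ContDiff ℝ ∞ (fderiv ℝ H) := hH.fderiv_right (m := ∞) (by simp)
  have hDP : ContDiff ℝ ∞ (fderiv ℝ P) := hP.fderiv_right (m := ∞) (by simp)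
  have h1 : ContDiff ℝ ∞ (Lu H) := hD.clm_comp contDiff_const
  have hP1 : ContDiff ℝ ∞ (fun z : E m × E m => P z.1) := hP.comp contDiff_fst
  have hDP1 : ContDiff ℝ ∞ (fun z : E m × E m => fderiv ℝ P z.1) := hDP.comp contDiff_fst
  have h5 : ContDiff ℝ ∞ (Lg H P) := by
    rw [contDiff_clm_apply_iff]
    intro b
    exact hD.clm_apply (contDiff_const.prodMk ((hDP1.clm_apply contDiff_const).clm_apply
      contDiff_snd))
  have h6 : ContDiff ℝ ∞ (fun z : E m × E m => P z.1 (dualV (Lu H z))) :=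
    hP1.clm_apply (dualV_smooth h1)
  exact h6.prodMk (((hDP1.clm_apply h6).clm_apply contDiff_snd).sub
    (hP1.clm_apply (dualV_smooth h5)))

/-- `P DP(q)[v] p = 0` for tangent vectors `v`, `p` -/
theorem PDP {N : Set (E m)} {P : E m → E m →L[ℝ] E m} (hP : IsProjField N P) {q v p : E m}
    (hv : IsTan N q v) (hp : P q p = p) : P q (fderiv ℝ P q v p) = 0 := by
  obtain ⟨c, h1, h2, h3, h4⟩ := hv
  subst h3
  have hcd : HasDerivAt c v 0 := by
    rw [← h4]
    exact (h1.differentiableAt (by simp)).hasDerivAt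
  have h5 : HasDerivAt (fun t => P (c t)) (fderiv ℝ P (c 0) v) 0 :=
    (hP.smooth.differentiable (by simp) _).hasFDerivAt.comp_hasDerivAt 0 hcd
  have h6 : HasDerivAt (fun t => P (c t) p) (fderiv ℝ P (c 0) v p) 0 := by
    simpa using h5.clm_apply (hasDerivAt_const (0 : ℝ) p)
  have h7 : HasDerivAt (fun t => P (c t) (P (c t) p))
      (fderiv ℝ P (c 0) v (P (c 0) p) + P (c 0) (fderiv ℝ P (c 0) v p)) 0 := h5.clm_apply h6
  have h8 : (fun t => P (c t) (P (c t) p)) =ᶠ[𝓝 0] fun t => P (c t) p := by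
    filter_upwards [h2] with t ht
    exact hP.idem _ ht _
  have h9 := (h7.congr_of_eventuallyEq h8.symm).unique h6
  rw [hp] at h9
  simpa using h9

theorem t_FIELD (hCT : S_CT) : S_FIELD := by
  intro m k N P H hN hM hP hH hHc
  obtain ⟨-, hCTt⟩ := hCT m N P hN.isClosed hP
  refine ⟨XX H P, XX_smooth hH hP.smooth, ?_, ?_⟩
  · refine HasCompactSupport.intro hHc fun z hz => ?_
    have h1 : fderiv ℝ H z = 0 := fderiv_of_notMem_tsupport (𝕜 := ℝ) hz
    have h2 : Lu H z = 0 := by simp [Lu, h1]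
    have h3 : Lg H P z = 0 := by simp [Lg, h1]
    simp [XX, h2, h3, dualV_zero]
  · intro z hz
    have hzN := hz.1
    have hp : P z.1 z.2 = z.2 := (hP.tan z.1 hzN z.2).1 hz.2
    set u := dualV (Lu H z) with hu
    set g := dualV (Lg H P z) with hg
    have hPu : IsTan N z.1 (P z.1 u) := (hP.tan z.1 hzN _).2 (hP.idem z.1 hzN u)
    have h0 : P z.1 (fderiv ℝ P z.1 (P z.1 u) z.2) = 0 := PDP hP hPu hp
    have hX : XX H P z = (P z.1 u, fderiv ℝ P z.1 (P z.1 u) z.2 - P z.1 g) := rfl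
    refine ⟨?_, fun a ha => ?_⟩
    · rw [hCTt z hz, hX]
      refine ⟨hPu, ?_⟩
      show fderiv ℝ P z.1 (P z.1 u) z.2 - P z.1 g = fderiv ℝ P z.1 (P z.1 u) z.2 +
        P z.1 (fderiv ℝ P z.1 (P z.1 u) z.2 - P z.1 g)
      rw [map_sub, h0, hP.idem z.1 hzN]
      abel
    · rw [hCTt z hz] at ha
      obtain ⟨ha1, ha2⟩ := ha
      have hPa : P z.1 a.1 = a.1 := (hP.tan z.1 hzN _).1 ha1
      unfold om
      rw [hX]
      show ⟪fderiv ℝ P z.1 (P z.1 u) z.2 - P z.1 g, a.1⟫ - ⟪a.2, P z.1 u⟫ = _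
      rw [inner_sub_left]
      have h1 : ⟪fderiv ℝ P z.1 (P z.1 u) z.2, a.1⟫ = 0 := by
        rw [← hPa, ← hP.symm z.1 hzN, h0, inner_zero_left]
      have h2 : ⟪P z.1 g, a.1⟫ = fderiv ℝ H z (a.1, fderiv ℝ P z.1 a.1 z.2) := by
        rw [hP.symm z.1 hzN, hPa, hg, dualV_inner]
        rfl
      have h3 : ⟪a.2, P z.1 u⟫ = fderiv ℝ H z (0, P z.1 a.2) := by
        rw [← hP.symm z.1 hzN, real_inner_comm, hu, dualV_inner]
        rfl
      rw [h1, h2, h3]
      have h4 : a = (a.1, fderiv ℝ P z.1 a.1 z.2) + (0, P z.1 a.2) := by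
        ext1
        · simp
        · simpa using ha2
      conv_rhs => rw [h4, map_add]
      ring

end Pool.Agent.D0H84.NG
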