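import Pool.Agent.D0H84.NG.Inv

/-! The orthogonal projections to the tangent spaces. -/

set_option autoImplicit false

open Set Filter Topology Metric Function
open scoped ContDiff RealInnerProductSpace NNReal

noncomputable section

namespace Pool.Agent.D0H84.NG

open Pool.Agent.D0H39.NG

variable {k m : ℕ}

/-- the adjoint as a continuous linear map -/
def adjL (k m : ℕ) : (E k →L[ℝ] E m) →L[ℝ] (E m →L[ℝ] E k) :=
  LinearMap.toContinuousLinearMap
    { toFun := fun A => ContinuousLinearMap.adjoint A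
      map_add' := by intro A B; simp
      map_smul' := by intro r A; simp }

theorem adjL_inner (A : E k →L[ℝ] E m) (v : E m) (x : E k) : ⟪adjL k m A v, x⟫ = ⟪v, A x⟫ :=
  ContinuousLinearMap.adjoint_inner_left A x v

/-- the orthogonal projection to the range of an injective map -/
def Pr (A : E k →L[ℝ] E m) : E m →L[ℝ] E m :=
  A.comp ((ContinuousLinearMap.inverse ((adjL k m A).comp A)).comp (adjL k m A))

theorem gram_equiv (A : E k →L[ℝ] E m) (hA : Injective A) :
    ∃ e : E k ≃L[ℝ] E k, (e : E k →L[ℝ] E k) = (adjL k m A).comp A := by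
  have h1 : Injective ((adjL k m A).comp A : E k →ₗ[ℝ] E k) := by
    rw [injective_iff_map_eq_zero]
    intro x hx
    have h2 : ⟪adjL k m A (A x), x⟫ = 0 := by
      have h3 : adjL k m A (A x) = 0 := hx
      rw [h3, inner_zero_left]
    rw [adjL_inner, inner_self_eq_zero] at h2
    exact hA (by rw [h2, map_zero])
  refine ⟨(LinearEquiv.ofInjectiveEndo _ h1).toContinuousLinearEquiv, ?_⟩
  ext x
  rfl

theorem Pr_mem (A : E k →L[ℝ] E m) (v : E m) : ∃ x, A x = Pr A v := ⟨_, rfl⟩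

theorem Pr_apply (A : E k →L[ℝ] E m) (hA : Injective A) (x : E k) : Pr A (A x) = A x := by
  obtain ⟨e, he⟩ := gram_equiv A hA
  unfold Pr
  rw [← he]
  simp only [ContinuousLinearMap.comp_apply, ContinuousLinearMap.inverse_equiv]
  congr 1
  have h : adjL k m A (A x) = e x := by
    have := congrArg (fun L : E k →L[ℝ] E k => L x) he
    exact this.symm
  rw [h]
  simp

theorem Pr_inner (A : E k →L[ℝ] E m) (hA : Injective A) (v w : E m) :
    ⟪v, Pr A w⟫ = ⟪Pr A v, Pr A w⟫ := by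
  obtain ⟨y, hy⟩ := Pr_mem A w
  rw [← hy]
  rw [← adjL_inner, ← adjL_inner]
  congr 1
  obtain ⟨e, he⟩ := gram_equiv A hA
  have h : ∀ x, adjL k m A (A x) = e x := fun x => by
    have := congrArg (fun L : E k →L[ℝ] E k => L x) he
    exact this.symm
  unfold Pr
  rw [← he]
  simp only [ContinuousLinearMap.comp_apply, ContinuousLinearMap.inverse_equiv]
  rw [h]
  simp

theorem Pr_symm (A : E k →L[ℝ] E m) (hA : Injective A) (v w : E m) :
    ⟪Pr A v, w⟫ = ⟪v, Pr A w⟫ := by
  rw [Pr_inner A hA, real_inner_comm, Pr_inner A hA, real_inner_comm]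

theorem Pr_idem (A : E k →L[ℝ] E m) (hA : Injective A) (v : E m) : Pr A (Pr A v) = Pr A v := by
  obtain ⟨x, hx⟩ := Pr_mem A v
  rw [← hx, Pr_apply A hA]

theorem Pr_iff (A : E k →L[ℝ] E m) (hA : Injective A) (v : E m) :
    (∃ x, A x = v) ↔ Pr A v = v := by
  constructor
  · rintro ⟨x, rfl⟩
    exact Pr_apply A hA x
  · intro h
    rw [← h]
    exact Pr_mem A v

/-- the projection depends only on the range -/
theorem Pr_congr {k' : ℕ} (A : E k →L[ℝ] E m) (hA : Injective A) (B : E k' →L[ℝ] E m)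
    (hB : Injective B) (h : ∀ v, (∃ x, A x = v) ↔ ∃ x, B x = v) : Pr A = Pr B := by
  ext1 v
  apply ext_inner_right ℝ
  intro w
  have h1 : Pr B (Pr A v) = Pr A v := (Pr_iff B hB _).1 ((h _).1 (Pr_mem A v))
  have h2 : Pr A (Pr B w) = Pr B w := (Pr_iff A hA _).1 ((h _).2 (Pr_mem B w))
  rw [← h1, Pr_symm B hB, Pr_symm A hA, h2, Pr_symm B hB]

theorem Pr_smooth {V : Type} [NormedAddCommGroup V] [NormedSpace ℝ V] {A : V → E k →L[ℝ] E m}
    (hA : ContDiff ℝ ∞ A) (hi : ∀ q, Injective (A q)) : ContDiff ℝ ∞ fun q => Pr (A q) := by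
  have h1 : ContDiff ℝ ∞ fun q => adjL k m (A q) := (adjL k m).contDiff.comp hA
  have h2 : ContDiff ℝ ∞ fun q => (adjL k m (A q)).comp (A q) := h1.clm_comp hA
  have h3 : ContDiff ℝ ∞ fun q => ContinuousLinearMap.inverse ((adjL k m (A q)).comp (A q)) := by
    rw [contDiff_iff_contDiffAt]
    intro q
    obtain ⟨e, he⟩ := gram_equiv (A q) (hi q)
    have h4 : ContDiffAt ℝ ∞ ContinuousLinearMap.inverse ((adjL k m (A q)).comp (A q)) := by
      rw [← he]
      exact contDiffAt_map_inverse e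
    exact h4.comp q h2.contDiffAt
  exact hA.clm_comp (h3.clm_comp h1)

theorem t_PROJ (hE : S_EXT) : S_PROJ := by
  classical
  intro m k N hN hM
  choose! F hF hF0 using hM
  have himm : ∀ q ∈ N, ∀ s, Injective (fderiv ℝ (F q) s) := by
    intro q hq s
    rw [injective_iff_map_eq_zero]
    exact (hF q hq).imm s
  obtain ⟨P, hP, hPg⟩ := hE (E m) (E m →L[ℝ] E m) N (fun q => Pr (fderiv ℝ (F q) 0)) hN.isClosed (by
    intro q hq
    obtain ⟨θ, hθ, hθ1, hθ2⟩ := t_INV (E m) k N (F q) (hF q hq) 0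
    rw [hF0 q hq] at hθ2
    obtain ⟨U, hU, hUo, hqU⟩ := _root_.eventually_nhds_iff.1 hθ2
    refine ⟨fun y => Pr (fderiv ℝ (F q) (θ y)), U, hUo, hqU, ?_, ?_⟩
    · refine (Pr_smooth ?_ fun y => himm q hq _).contDiffOn
      exact ((hF q hq).smooth.fderiv_right (m := ∞) (by simp)).comp hθ
    · intro y hy hyN
      refine Pr_congr _ (himm q hq _) _ (himm y hyN _) fun v => ?_
      rw [← t_TAN (E m) k N (F q) (hF q hq) (θ y) v, ← t_TAN (E m) k N (F y) (hF y hyN) 0 v,
        hF0 y hyN, hU y hy hyN])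
  refine ⟨P, hP, ?_, ?_, ?_⟩
  · intro q hq v
    rw [hPg q hq, ← Pr_iff _ (himm q hq 0), ← t_TAN (E m) k N (F q) (hF q hq) 0 v, hF0 q hq]
  · intro q hq v
    rw [hPg q hq]
    exact Pr_idem _ (himm q hq 0) v
  · intro q hq v w
    rw [hPg q hq]
    exact Pr_symm _ (himm q hq 0) v w

end Pool.Agent.D0H84.NG
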