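import Pool.Agent.D0H39.NG.Bas

/-! Left inverses of parametrizations, tangent vectors in a parametrization. -/

set_option autoImplicit false

open Set Filter Topology Metric Function
open scoped ContDiff RealInnerProductSpace NNReal

noncomputable section

namespace Pool.Agent.D0H84.NG

open Pool.Agent.D0H39.NG

theorem tendsto_clm_apply {V W : Type} [NormedAddCommGroup V] [NormedSpace ℝ V]
    [NormedAddCommGroup W] [NormedSpace ℝ W] {ι : Type} {l : Filter ι} {f : ι → V →L[ℝ] W}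
    {g : ι → V} {L : V →L[ℝ] W} {v : V} (hf : Tendsto f l (𝓝 L)) (hg : Tendsto g l (𝓝 v)) :
    Tendsto (fun j => f j (g j)) l (𝓝 (L v)) := by
  have h : Continuous (fun y : (V →L[ℝ] W) × V => y.1 y.2) := continuous_fst.clm_apply continuous_snd
  exact (h.tendsto (L, v)).comp (hf.prodMk_nhds hg)

/-- a smooth map `ℝ^k → ℝ^k` with invertible derivative has a smooth left inverse, defined on the
whole space -/
theorem local_inverse {k : ℕ} (g : E k → E k) (hg : ContDiff ℝ ∞ g) (s₀ : E k)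
    (g' : E k ≃L[ℝ] E k) (hg' : HasFDerivAt g (g' : E k →L[ℝ] E k) s₀) :
    ∃ θ : E k → E k, ContDiff ℝ ∞ θ ∧ ∀ᶠ s in 𝓝 s₀, θ (g s) = s := by
  have hga : ContDiffAt ℝ ∞ g s₀ := hg.contDiffAt
  let e := hga.toOpenPartialHomeomorph g hg' (by simp)
  have he : ∀ s, e s = g s := fun s => rfl
  have hs : s₀ ∈ e.source := hga.mem_toOpenPartialHomeomorph_source hg' (by simp)
  have ht : g s₀ ∈ e.target := hga.image_mem_toOpenPartialHomeomorph_target hg' (by simp)
  have hes : e.symm (g s₀) = s₀ := e.left_inv hs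
  -- the derivative is invertible near `s₀`
  have h1 : ∀ᶠ s in 𝓝 s₀, ∃ f : E k ≃L[ℝ] E k, (f : E k →L[ℝ] E k) = fderiv ℝ g s := by
    have h2 : Continuous (fderiv ℝ g) := hg.continuous_fderiv (by simp)
    have h3 : range ((↑) : (E k ≃L[ℝ] E k) → E k →L[ℝ] E k) ∈ 𝓝 (fderiv ℝ g s₀) := by
      rw [hg'.fderiv]
      exact ContinuousLinearEquiv.nhds g'
    exact h2.continuousAt.eventually h3
  have h2 : ∀ᶠ a in 𝓝 (g s₀), ContDiffAt ℝ ∞ e.symm a := by
    have h3 : Tendsto e.symm (𝓝 (g s₀)) (𝓝 s₀) := by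
      have := e.symm.continuousAt (x := g s₀) ht
      rw [ContinuousAt, hes] at this
      exact this
    filter_upwards [e.open_target.mem_nhds ht, h3.eventually h1] with a ha ⟨f, hf⟩
    refine e.contDiffAt_symm ha (f₀' := f) ?_ hg.contDiffAt
    rw [hf]
    exact (hg.differentiable (by simp) _).hasFDerivAt
  obtain ⟨r, hr, hr'⟩ := Metric.eventually_nhds_iff_ball.1 h2
  let χ : ContDiffBump (g s₀) := ⟨r / 4, r / 2, by positivity, by linarith⟩
  have hχr : χ.rOut = r / 2 := rfl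
  refine ⟨fun a => χ a • e.symm a, ?_, ?_⟩
  · rw [contDiff_iff_contDiffAt]
    intro a
    by_cases ha : a ∈ ball (g s₀) r
    · exact χ.contDiffAt.smul (hr' a ha)
    · have h3 : (fun a => χ a • e.symm a) =ᶠ[𝓝 a] fun _ => 0 := by
        have h4 : a ∈ (closedBall (g s₀) (r / 2))ᶜ := by
          intro h5
          apply ha
          rw [mem_closedBall] at h5
          rw [mem_ball]
          linarith
        filter_upwards [isClosed_closedBall.isOpen_compl.mem_nhds h4] with y hy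
        have h5 : χ y = 0 := by
          apply χ.zero_of_le_dist
          rw [hχr]
          rw [mem_compl_iff, mem_closedBall, not_le] at hy
          exact hy.le
        rw [h5, zero_smul]
      exact contDiffAt_const.congr_of_eventuallyEq h3
  · have h3 : ∀ᶠ a in 𝓝 (g s₀), χ a = 1 := χ.eventuallyEq_one
    filter_upwards [e.open_source.mem_nhds hs, hg.continuous.continuousAt.eventually h3] with s h4 h5
    show χ (g s) • e.symm (g s) = s
    rw [h5, one_smul]
    exact e.left_inv h4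

theorem t_INV : S_INV := by
  intro V _ _ _ k S F hF s₀
  have hinj : Injective (fderiv ℝ F s₀) := by
    rw [injective_iff_map_eq_zero]
    exact hF.imm s₀
  obtain ⟨A₀, hA₀⟩ := LinearMap.exists_leftInverse_of_injective (fderiv ℝ F s₀ : E k →ₗ[ℝ] V)
    (LinearMap.ker_eq_bot.2 hinj)
  let A : V →L[ℝ] E k := LinearMap.toContinuousLinearMap A₀
  have hA : ∀ v, A (fderiv ℝ F s₀ v) = v := fun v => LinearMap.congr_fun hA₀ v
  have hg : ContDiff ℝ ∞ (fun s => A (F s)) := A.contDiff.comp hF.smooth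
  have hg' : HasFDerivAt (fun s => A (F s))
      ((ContinuousLinearEquiv.refl ℝ (E k) : E k ≃L[ℝ] E k) : E k →L[ℝ] E k) s₀ := by
    have h1 : HasFDerivAt (fun s => A (F s)) (A.comp (fderiv ℝ F s₀)) s₀ :=
      A.hasFDerivAt.comp s₀ (hF.smooth.differentiable (by simp) s₀).hasFDerivAt
    convert h1 using 1
    ext v
    simp [hA]
  obtain ⟨θ, hθ, hθ'⟩ := local_inverse _ hg s₀ _ hg'
  refine ⟨fun y => θ (A y), hθ.comp A.contDiff, hθ', ?_⟩
  obtain ⟨U, hU, hUo, hsU⟩ := _root_.eventually_nhds_iff.1 hθ'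
  obtain ⟨U', hU', hUU⟩ := hF.isOpen U hUo
  have h1 : F s₀ ∈ F '' U := ⟨s₀, hsU, rfl⟩
  rw [hUU] at h1
  filter_upwards [hU'.mem_nhds h1.2] with y hy hyS
  have h2 : y ∈ F '' U := by
    rw [hUU]
    exact ⟨hyS, hy⟩
  obtain ⟨s, hs, rfl⟩ := h2
  rw [hU s hs]

theorem t_TAN : S_TAN := by
  intro V _ _ _ k S F hF s a
  constructor
  · rintro ⟨c, h1, h2, h3, h4⟩
    obtain ⟨θ, hθ, hθ1, hθ2⟩ := t_INV V k S F hF s
    have hs : θ (F s) = s := hθ1.self_of_nhds
    have hd : HasDerivAt c a 0 := by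
      rw [← h4]
      exact (h1.differentiableAt (by simp)).hasDerivAt
    have h5 : HasDerivAt (fun t => θ (c t)) (fderiv ℝ θ (c 0) a) 0 :=
      (hθ.differentiable (by simp) _).hasFDerivAt.comp_hasDerivAt 0 hd
    have h6 : HasDerivAt (fun t => F (θ (c t))) (fderiv ℝ F (θ (c 0)) (fderiv ℝ θ (c 0) a)) 0 :=
      (hF.smooth.differentiable (by simp) _).hasFDerivAt.comp_hasDerivAt 0 h5
    have h7 : (fun t => F (θ (c t))) =ᶠ[𝓝 0] c := by
      have h8 : Tendsto c (𝓝 0) (𝓝 (F s)) := by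
        rw [← h3]
        exact h1.continuousAt
      filter_upwards [h2, h8.eventually hθ2] with t h9 h10
      exact h10 h9
    refine ⟨fderiv ℝ θ (c 0) a, ?_⟩
    have h8 := h6.congr_of_eventuallyEq h7.symm
    have h9 := h8.unique hd
    rw [h3, hs] at h9
    rw [h3]
    exact h9
  · rintro ⟨v, rfl⟩
    have h1 : HasDerivAt (fun t : ℝ => s + t • v) v 0 := by
      simpa using ((hasDerivAt_id (0 : ℝ)).smul_const v).const_add s
    have h2 : HasDerivAt (fun t : ℝ => F (s + t • v)) (fderiv ℝ F s v) 0 := by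
      have h3 : HasFDerivAt F (fderiv ℝ F s) ((fun t : ℝ => s + t • v) 0) := by
        simpa using (hF.smooth.differentiable (by simp) s).hasFDerivAt
      exact h3.comp_hasDerivAt 0 h1
    refine ⟨fun t => F (s + t • v), ?_, Eventually.of_forall fun t => hF.mem _, by simp, h2.deriv⟩
    have h3 : ContDiff ℝ ∞ (fun t : ℝ => F (s + t • v)) := hF.smooth.comp (by fun_prop)
    exact h3.contDiffAt

theorem t_LIN : S_LIN := by
  intro V _ _ _ k S hS z hz
  obtain ⟨F, hF, hF0⟩ := hS z hz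
  refine ⟨LinearMap.range (fderiv ℝ F 0 : E k →ₗ[ℝ] V), fun a => ?_⟩
  rw [← hF0, t_TAN V k S F hF 0 a]
  exact Iff.rfl

theorem t_TCL : S_TCL := by
  intro V _ _ _ k S hS u b z a hu hz hb hu' hb'
  obtain ⟨F, hF, hF0⟩ := hS z hz
  obtain ⟨θ, hθ, hθ1, hθ2⟩ := t_INV V k S F hF 0
  have hθz : θ z = 0 := by
    rw [← hF0]
    exact hθ1.self_of_nhds
  have hs : Tendsto (fun j => θ (u j)) atTop (𝓝 0) := by
    rw [← hθz]
    exact hθ.continuous.continuousAt.tendsto.comp hu'
  -- the derivative of `θ ∘ F`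
  have h1 : ∀ᶠ s in 𝓝 (0 : E k), ∀ v, fderiv ℝ θ (F s) (fderiv ℝ F s v) = v := by
    filter_upwards [hθ1.eventually_nhds] with s h2 v
    have h3 : HasFDerivAt (fun s => θ (F s)) ((fderiv ℝ θ (F s)).comp (fderiv ℝ F s)) s :=
      (hθ.differentiable (by simp) _).hasFDerivAt.comp s
        (hF.smooth.differentiable (by simp) _).hasFDerivAt
    have h4 : HasFDerivAt (fun s => θ (F s)) (ContinuousLinearMap.id ℝ (E k)) s :=
      (hasFDerivAt_id s).congr_of_eventuallyEq h2
    have h5 := congrArg (fun L : E k →L[ℝ] E k => L v) (h3.unique h4)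
    exact h5
  have h2 : ∀ᶠ j in atTop, b j = fderiv ℝ F (θ (u j)) (fderiv ℝ θ (u j) (b j)) := by
    rw [← hF0] at hu'
    filter_upwards [hs.eventually h1, hu'.eventually hθ2] with j h3 h4
    have h5 := h4 (hu j)
    have h6 := hb j
    rw [← h5, t_TAN V k S F hF] at h6
    obtain ⟨v, hv⟩ := h6
    have h7 := h3 v
    rw [hv, h5] at h7
    rw [h7, hv]
  have h3 : Tendsto (fun j => fderiv ℝ F (θ (u j)) (fderiv ℝ θ (u j) (b j))) atTop
      (𝓝 (fderiv ℝ F 0 (fderiv ℝ θ z a))) := by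
    have h4 : Tendsto (fun j => fderiv ℝ θ (u j)) atTop (𝓝 (fderiv ℝ θ z)) :=
      (hθ.continuous_fderiv (by simp)).continuousAt.tendsto.comp hu'
    have h5 : Tendsto (fun j => fderiv ℝ F (θ (u j))) atTop (𝓝 (fderiv ℝ F 0)) :=
      (hF.smooth.continuous_fderiv (by simp)).continuousAt.tendsto.comp hs
    exact tendsto_clm_apply h5 (tendsto_clm_apply h4 hb')
  have h4 : a = fderiv ℝ F 0 (fderiv ℝ θ z a) :=
    tendsto_nhds_unique hb' (h3.congr' (by filter_upwards [h2] with j hj using hj.symm))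
  rw [← hF0, t_TAN V k S F hF]
  exact ⟨fderiv ℝ θ z a, h4.symm⟩

end Pool.Agent.D0H84.NG
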