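import Pool.Agent.D0H84.NG.Inv

/-! After a short time there are no vertical tangencies. -/

set_option autoImplicit false

open Set Filter Topology Metric Function
open scoped ContDiff RealInnerProductSpace NNReal

noncomputable section

namespace Pool.Agent.D0H84.NG

open Pool.Agent.D0H39.NG

theorem two_le_infty : (2 : WithTop ℕ∞) ≤ ∞ := by
  have h : ((2 : ℕ∞) : WithTop ℕ∞) ≤ ((⊤ : ℕ∞) : WithTop ℕ∞) := WithTop.coe_le_coe.2 le_top
  exact h

section flow

variable {V W : Type} [NormedAddCommGroup V] [NormedSpace ℝ V] [NormedAddCommGroup W]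
  [NormedSpace ℝ W]

theorem hasDerivAt_fst' {c : ℝ → V × W} {c' : V × W} {t : ℝ} (h : HasDerivAt c c' t) :
    HasDerivAt (fun s => (c s).1) c'.1 t := by
  have := (ContinuousLinearMap.fst ℝ V W).hasFDerivAt.comp_hasDerivAt t h
  exact this

theorem hasDerivAt_snd' {c : ℝ → V × W} {c' : V × W} {t : ℝ} (h : HasDerivAt c c' t) :
    HasDerivAt (fun s => (c s).2) c'.2 t := by
  have := (ContinuousLinearMap.snd ℝ V W).hasFDerivAt.comp_hasDerivAt t h
  exact this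

/-- the derivative of the flow in the space variable -/
def GG (φ : ℝ → V → V) (y : ℝ × (V × V)) : V :=
  fderiv ℝ (fun y : ℝ × V => φ y.1 y.2) (y.1, y.2.1) (0, y.2.2)

theorem GG_eq {φ : ℝ → V → V} (hφ : ContDiff ℝ ∞ (fun y : ℝ × V => φ y.1 y.2)) (t : ℝ) (z a : V) :
    GG φ (t, z, a) = fderiv ℝ (φ t) z a := by
  have h1 : HasFDerivAt (fun w : V => ((t, w) : ℝ × V)) (ContinuousLinearMap.inr ℝ ℝ V) z := by
    exact hasFDerivAt_prodMk_right t z
  have h2 : HasFDerivAt (fun y : ℝ × V => φ y.1 y.2) (fderiv ℝ (fun y : ℝ × V => φ y.1 y.2) (t, z))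
      (t, z) := (hφ.differentiable (by simp) _).hasFDerivAt
  have h3 : HasFDerivAt (φ t) ((fderiv ℝ (fun y : ℝ × V => φ y.1 y.2) (t, z)).comp
      (ContinuousLinearMap.inr ℝ ℝ V)) z := h2.comp z h1
  rw [h3.fderiv]
  rfl

theorem GG_zero {φ : ℝ → V → V} (hφ : ContDiff ℝ ∞ (fun y : ℝ × V => φ y.1 y.2))
    (h0 : ∀ z, φ 0 z = z) (z a : V) : GG φ (0, z, a) = a := by
  rw [GG_eq hφ]
  have h1 : φ 0 = id := funext h0
  rw [h1, fderiv_id]
  rfl

theorem GG_smooth {φ : ℝ → V → V} (hφ : ContDiff ℝ ∞ (fun y : ℝ × V => φ y.1 y.2)) :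
    ContDiff ℝ ∞ (GG φ) := by
  have h1 : ContDiff ℝ ∞ (fderiv ℝ (fun y : ℝ × V => φ y.1 y.2)) :=
    hφ.fderiv_right (m := ∞) (by simp)
  have h2 : ContDiff ℝ ∞ (fun y : ℝ × (V × V) => ((y.1, y.2.1) : ℝ × V)) := by fun_prop
  have h3 : ContDiff ℝ ∞ (fun y : ℝ × (V × V) => ((0, y.2.2) : ℝ × V)) := by fun_prop
  exact (h1.comp h2).clm_apply h3

/-- the mixed derivative -/
theorem GG_deriv {X : V → V} {φ : ℝ → V → V} (hφ : IsFlow X φ) (hX : ContDiff ℝ ∞ X) (z a : V) :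
    fderiv ℝ (GG φ) (0, z, a) (1, 0, 0) = fderiv ℝ X z a := by
  set Φ : ℝ × V → V := fun y => φ y.1 y.2 with hΦ
  have hs : ContDiff ℝ ∞ Φ := hφ.smooth
  have hD : ContDiff ℝ ∞ (fderiv ℝ Φ) := hs.fderiv_right (m := ∞) (by simp)
  have hsym : IsSymmSndFDerivAt ℝ Φ (0, z) := by
    apply hs.contDiffAt.isSymmSndFDerivAt
    simp only [minSmoothness_of_isRCLikeNormedField]
    exact two_le_infty
  have hDd : HasFDerivAt (fderiv ℝ Φ) (fderiv ℝ (fderiv ℝ Φ) (0, z)) (0, z) :=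
    (hD.differentiable (by simp) _).hasFDerivAt
  -- the first derivative
  have h1 : HasDerivAt (fun s : ℝ => GG φ (s, z, a)) (fderiv ℝ (GG φ) (0, z, a) (1, 0, 0)) 0 := by
    have h2 : HasFDerivAt (GG φ) (fderiv ℝ (GG φ) (0, z, a)) (0, z, a) :=
      ((GG_smooth hφ.smooth).differentiable (by simp) _).hasFDerivAt
    have h3 : HasDerivAt (fun s : ℝ => ((s, z, a) : ℝ × (V × V))) (1, 0, 0) 0 :=
      (hasDerivAt_id (0 : ℝ)).prodMk (hasDerivAt_const (0 : ℝ) ((z, a) : V × V))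
    exact h2.comp_hasDerivAt 0 h3
  have h2 : HasDerivAt (fun s : ℝ => GG φ (s, z, a))
      (fderiv ℝ (fderiv ℝ Φ) (0, z) (1, 0) (0, a)) 0 := by
    have h3 : HasDerivAt (fun s : ℝ => ((s, z) : ℝ × V)) (1, 0) 0 :=
      (hasDerivAt_id (0 : ℝ)).prodMk (hasDerivAt_const (0 : ℝ) z)
    have h4 : HasDerivAt (fun s : ℝ => fderiv ℝ Φ (s, z)) (fderiv ℝ (fderiv ℝ Φ) (0, z) (1, 0)) 0 :=
      hDd.comp_hasDerivAt 0 h3
    have h5 := h4.clm_apply (hasDerivAt_const (0 : ℝ) ((0, a) : ℝ × V))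
    show HasDerivAt (fun s : ℝ => fderiv ℝ Φ (s, z) (0, a)) _ 0
    simpa using h5
  have h3 : HasDerivAt (fun s : ℝ => X (z + s • a))
      (fderiv ℝ (fderiv ℝ Φ) (0, z) (0, a) (1, 0)) 0 := by
    have h4 : HasDerivAt (fun s : ℝ => ((0, z + s • a) : ℝ × V)) (0, a) 0 := by
      have h5 : HasDerivAt (fun s : ℝ => z + s • a) a 0 := by
        simpa using ((hasDerivAt_id (0 : ℝ)).smul_const a).const_add z
      exact (hasDerivAt_const (0 : ℝ) (0 : ℝ)).prodMk h5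
    have h5 : HasDerivAt (fun s : ℝ => fderiv ℝ Φ (0, z + s • a))
        (fderiv ℝ (fderiv ℝ Φ) (0, z) (0, a)) 0 := by
      have h6 : HasFDerivAt (fderiv ℝ Φ) (fderiv ℝ (fderiv ℝ Φ) (0, z))
          ((fun s : ℝ => ((0, z + s • a) : ℝ × V)) 0) := by simpa using hDd
      exact h6.comp_hasDerivAt 0 h4
    have h6 := h5.clm_apply (hasDerivAt_const (0 : ℝ) ((1, 0) : ℝ × V))
    have h7 : (fun s : ℝ => fderiv ℝ Φ (0, z + s • a) (1, 0)) = fun s : ℝ => X (z + s • a) := by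
      funext s
      have h8 : HasDerivAt (fun t : ℝ => ((t, z + s • a) : ℝ × V)) (1, 0) 0 :=
        (hasDerivAt_id (0 : ℝ)).prodMk (hasDerivAt_const (0 : ℝ) (z + s • a))
      have h9 : HasFDerivAt Φ (fderiv ℝ Φ (0, z + s • a)) (0, z + s • a) :=
        (hs.differentiable (by simp) _).hasFDerivAt
      have h10 : HasDerivAt (fun t : ℝ => φ t (z + s • a)) (fderiv ℝ Φ (0, z + s • a) (1, 0)) 0 := by
        have h12 := HasFDerivAt.comp_hasDerivAt (f := fun t : ℝ => ((t, z + s • a) : ℝ × V)) 0 h9 h8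
        exact h12
      have h11 := hφ.deriv (z + s • a) 0
      rw [hφ.zero] at h11
      exact h10.unique h11
    rw [← h7]
    simpa using h6
  have h4 : HasDerivAt (fun s : ℝ => X (z + s • a)) (fderiv ℝ X z a) 0 := by
    have h5 : HasDerivAt (fun s : ℝ => z + s • a) a 0 := by
      simpa using ((hasDerivAt_id (0 : ℝ)).smul_const a).const_add z
    have h6 : HasFDerivAt X (fderiv ℝ X z) ((fun s : ℝ => z + s • a) 0) := by
      simpa using (hX.differentiable (by simp) z).hasFDerivAt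
    exact h6.comp_hasDerivAt 0 h5
  rw [h1.unique h2, hsym (1, 0) (0, a), h3.unique h4]

/-- the difference quotients of the derivative of the flow -/
theorem GG_lim {X : V → V} {φ : ℝ → V → V} (hφ : IsFlow X φ) (hX : ContDiff ℝ ∞ X) {z a : V}
    {t : ℕ → ℝ} {u b : ℕ → V} (ht : ∀ j, 0 < t j) (ht0 : Tendsto t atTop (𝓝 0))
    (hu : Tendsto u atTop (𝓝 z)) (hb : Tendsto b atTop (𝓝 a)) :
    Tendsto (fun j => (t j)⁻¹ • (GG φ (t j, u j, b j) - b j)) atTop (𝓝 (fderiv ℝ X z a)) := by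
  have h1 : HasStrictFDerivAt (GG φ) (fderiv ℝ (GG φ) (0, z, a)) (0, z, a) :=
    (GG_smooth hφ.smooth).contDiffAt.hasStrictFDerivAt (by simp)
  have hx : Tendsto (fun j => (t j, u j, b j)) atTop (𝓝 (0, z, a)) :=
    ht0.prodMk_nhds (hu.prodMk_nhds hb)
  have hy : Tendsto (fun j => ((0 : ℝ), u j, b j)) atTop (𝓝 (0, z, a)) :=
    tendsto_const_nhds.prodMk_nhds (hu.prodMk_nhds hb)
  have h2 := h1.isLittleO.comp_tendsto (hx.prodMk_nhds hy)
  have h3 : (fun j => GG φ (t j, u j, b j) - b j - (t j) • fderiv ℝ X z a) =o[atTop] t := by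
    refine (h2.congr ?_ (g₂ := fun j => ((t j, 0, 0) : ℝ × V × V)) ?_).trans_isBigO ?_
    · intro j
      simp only [Function.comp_apply]
      rw [GG_zero hφ.smooth hφ.zero]
      congr 1
      rw [← GG_deriv hφ hX (z := z) (a := a), ← ContinuousLinearMap.map_smul]
      congr 1
      simp
      rfl
    · intro j
      simp
      rfl
    · refine Asymptotics.isBigO_of_le _ fun j => ?_
      simp [Prod.norm_def]
  have h4 := h3.tendsto_inv_smul_nhds_zero
  have h5 : Tendsto (fun j => (t j)⁻¹ • (GG φ (t j, u j, b j) - b j - (t j) • fderiv ℝ X z a) +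
      fderiv ℝ X z a) atTop (𝓝 (0 + fderiv ℝ X z a)) := h4.add tendsto_const_nhds
  rw [zero_add] at h5
  refine h5.congr fun j => ?_
  rw [smul_sub, smul_smul, inv_mul_cancel₀ (ht j).ne', one_smul, sub_add_cancel]

end flow

theorem Hp_eq {m : ℕ} {K : E m × E m → ℝ} (hK : ContDiff ℝ ∞ K) (w : E m × E m) (u v : E m) :
    Hp K w u v = fderiv ℝ (fderiv ℝ K) w ((0 : E m), v) ((0 : E m), u) := by
  have hD : ContDiff ℝ ∞ (fderiv ℝ K) := hK.fderiv_right (m := ∞) (by simp)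
  have h1 : HasFDerivAt (fderiv ℝ K) (fderiv ℝ (fderiv ℝ K) w) w :=
    (hD.differentiable (by simp) _).hasFDerivAt
  have h2 := h1.clm_apply (hasFDerivAt_const ((0, u) : E m × E m) w)
  unfold Hp
  rw [h2.fderiv]
  simp

theorem Hp_symm {m : ℕ} {K : E m × E m → ℝ} (hK : ContDiff ℝ ∞ K) (w : E m × E m) (u v : E m) :
    Hp K w u v = Hp K w v u := by
  rw [Hp_eq hK, Hp_eq hK]
  have hsym : IsSymmSndFDerivAt ℝ K w := by
    apply hK.contDiffAt.isSymmSndFDerivAt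
    simp only [minSmoothness_of_isRCLikeNormedField]
    exact two_le_infty
  exact hsym _ _

theorem Hp_smul {m : ℕ} {K : E m × E m → ℝ} (hK : ContDiff ℝ ∞ K) (w : E m × E m) (r : ℝ)
    (u v : E m) : Hp K w (r • u) v = r * Hp K w u v := by
  rw [Hp_eq hK, Hp_eq hK]
  have h : (((0 : E m), r • u) : E m × E m) = r • ((0 : E m), u) := by simp
  rw [h, ContinuousLinearMap.map_smul, smul_eq_mul]

theorem Hp_lim {m : ℕ} {K : E m × E m → ℝ} (hK : ContDiff ℝ ∞ K) {w : E m × E m} {u v : E m}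
    {w' : ℕ → E m × E m} {u' v' : ℕ → E m} (hw : Tendsto w' atTop (𝓝 w))
    (hu : Tendsto u' atTop (𝓝 u)) (hv : Tendsto v' atTop (𝓝 v)) :
    Tendsto (fun j => Hp K (w' j) (u' j) (v' j)) atTop (𝓝 (Hp K w u v)) := by
  simp only [Hp_eq hK]
  have hD : ContDiff ℝ ∞ (fderiv ℝ K) := hK.fderiv_right (m := ∞) (by simp)
  have h1 : Tendsto (fun j => fderiv ℝ (fderiv ℝ K) (w' j)) atTop (𝓝 (fderiv ℝ (fderiv ℝ K) w)) :=
    ((hD.continuous_fderiv (by simp)).tendsto w).comp hw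
  exact tendsto_clm_apply (tendsto_clm_apply h1 (tendsto_const_nhds.prodMk_nhds hv))
    (tendsto_const_nhds.prodMk_nhds hu)

theorem t_NOV (hCT : S_CT) : S_NOV := by
  intro m k N P Λ H X φ h hN hP hΛ hH hT
  by_contra hcon
  push Not at hcon
  obtain ⟨-, hCTt⟩ := hCT m N P hN hP
  have h1 : ∀ j : ℕ, ∃ z a, z ∈ Λ ∧ IsTan Λ z a ∧
      (fderiv ℝ (φ (1 / ((j : ℝ) + 1))) z a).1 = 0 ∧ ‖a‖ = 1 := by
    intro j
    obtain ⟨z, hz, a, ha, ha1, ha0⟩ := hcon (1 / ((j : ℝ) + 1))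
    refine ⟨z, ‖a‖⁻¹ • a, hz, ha.smul _, ?_, ?_⟩
    · rw [ContinuousLinearMap.map_smul, Prod.smul_fst, ha1, smul_zero]
    · rw [norm_smul, norm_inv, norm_norm, inv_mul_cancel₀ (norm_ne_zero_iff.2 ha0)]
  choose u b hu hb hub hb1 using h1
  obtain ⟨z, hz, σ, hσ, hσz⟩ := hΛ.compact.tendsto_subseq hu
  obtain ⟨a, ha, τ, hτ, hτa⟩ := (isCompact_sphere (0 : E m × E m) 1).tendsto_subseq
    (x := fun j => b (σ j)) (fun j => by simp [hb1])
  have ha1 : ‖a‖ = 1 := by simpa using ha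
  set ρ : ℕ → ℕ := fun j => σ (τ j) with hρ
  have hρm : StrictMono ρ := hσ.comp hτ
  have hρu : Tendsto (fun j => u (ρ j)) atTop (𝓝 z) := hσz.comp hτ.tendsto_atTop
  have hρb : Tendsto (fun j => b (ρ j)) atTop (𝓝 a) := hτa
  let t : ℕ → ℝ := fun j => 1 / ((ρ j : ℝ) + 1)
  have ht : ∀ j, 0 < t j := fun j => by positivity
  have ht0 : Tendsto t atTop (𝓝 0) :=
    tendsto_one_div_add_atTop_nhds_zero_nat.comp hρm.tendsto_atTop
  have hta : IsTan Λ z a := t_TCL _ k Λ hΛ.mfd (fun j => u (ρ j)) (fun j => b (ρ j)) z a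
    (fun j => hu _) hz (fun j => hb _) hρu hρb
  have hG0 : ∀ j, (GG φ (t j, u (ρ j), b (ρ j))).1 = 0 := by
    intro j
    rw [GG_eq hH.flow.smooth]
    exact hub _
  set η : E m := (fderiv ℝ X z a).1 with hη
  -- the difference quotients
  have h2 : Tendsto (fun j => (t j)⁻¹ • (b (ρ j)).1) atTop (𝓝 (-η)) := by
    have h3 := GG_lim hH.flow hH.hX ht ht0 hρu hρb
    have h4 := ((continuous_fst.tendsto _).comp h3).neg
    refine h4.congr fun j => ?_
    simp only [Function.comp_apply, Prod.smul_fst, Prod.fst_sub]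
    rw [hG0, zero_sub, smul_neg, neg_neg]
  have ha0 : a.1 = 0 := by
    have h3 : Tendsto (fun j => (t j) • ((t j)⁻¹ • (b (ρ j)).1)) atTop (𝓝 ((0 : ℝ) • (-η))) :=
      ht0.smul h2
    have h4 : Tendsto (fun j => (b (ρ j)).1) atTop (𝓝 a.1) := (continuous_fst.tendsto _).comp hρb
    have h5 : (fun j => (t j) • ((t j)⁻¹ • (b (ρ j)).1)) = fun j => (b (ρ j)).1 := by
      funext j
      rw [smul_smul, mul_inv_cancel₀ (ht j).ne', one_smul]
    rw [h5, zero_smul] at h3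
    exact tendsto_nhds_unique h4 h3
  have haa : a = ((0 : E m), a.2) := Prod.ext ha0 rfl
  have ha2 : a.2 ≠ 0 := by
    intro h3
    rw [haa, h3] at ha1
    simp at ha1
  have hta' : IsTan Λ z (0, a.2) := by rw [← haa]; exact hta
  obtain ⟨C, r, hr, hC, hnd⟩ := hT.cond z hz ⟨a.2, ha2, hta'⟩
  -- the Hamiltonian vector field
  have hzN : z ∈ CT N := hΛ.sub hz
  have h3 : ∀ w ∈ CT N, ∀ v, ⟪P w.1 v, (X w).1⟫ = fderiv ℝ H w ((0 : E m), P w.1 v) := by
    intro w hw v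
    have h4 : IsTan (CT N) w ((0 : E m), P w.1 v) := by
      rw [hCTt w hw]
      refine ⟨isTan_zero hw.1, ?_⟩
      simp [hP.idem w.1 hw.1 v]
    have h5 := hH.ham w hw _ h4
    unfold om at h5
    simp only [inner_zero_right, zero_sub] at h5
    exact neg_injective h5
  have h4 : ∀ w ∈ CT N, P w.1 (X w).1 = (X w).1 := fun w hw =>
    (hP.tan w.1 hw.1 _).1 (CT.fst (hH.tan w hw))
  obtain ⟨c, hc1, hc2, hc3, hc4⟩ := hta
  have hcd : HasDerivAt c a 0 := by
    rw [← hc4]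
    exact (hc1.differentiableAt (by simp)).hasDerivAt
  have hXd : HasDerivAt (fun s => (X (c s)).1) η 0 := by
    have h5 : HasDerivAt (fun s => X (c s)) (fderiv ℝ X z a) 0 := by
      have h6 : HasFDerivAt X (fderiv ℝ X z) (c 0) := by
        rw [hc3]
        exact (hH.hX.differentiable (by simp) z).hasFDerivAt
      exact h6.comp_hasDerivAt 0 hcd
    exact hasDerivAt_fst' h5
  have hPd : HasDerivAt (fun s => P (c s).1) 0 0 := by
    have h5 : HasDerivAt (fun s => (c s).1) a.1 0 := hasDerivAt_fst' hcd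
    have h6 : HasFDerivAt P (fderiv ℝ P z.1) (c 0).1 := by
      rw [hc3]
      exact (hP.smooth.differentiable (by simp) z.1).hasFDerivAt
    have h7 : HasDerivAt (fun s => P (c s).1) (fderiv ℝ P z.1 a.1) 0 := h6.comp_hasDerivAt 0 h5
    rw [ha0, map_zero] at h7
    exact h7
  have hDd : HasDerivAt (fun s => fderiv ℝ H (c s)) (fderiv ℝ (fderiv ℝ H) z a) 0 := by
    have hD : ContDiff ℝ ∞ (fderiv ℝ H) := hH.hH.fderiv_right (m := ∞) (by simp)
    have h6 : HasFDerivAt (fderiv ℝ H) (fderiv ℝ (fderiv ℝ H) z) (c 0) := by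
      rw [hc3]
      exact (hD.differentiable (by simp) z).hasFDerivAt
    exact h6.comp_hasDerivAt 0 hcd
  have hPη : P z.1 η = η := by
    have h5 : HasDerivAt (fun s => P (c s).1 (X (c s)).1)
        ((0 : E m →L[ℝ] E m) (X (c 0)).1 + P (c 0).1 η) 0 := hPd.clm_apply hXd
    rw [hc3, zero_apply, zero_add] at h5
    refine (h5.congr_of_eventuallyEq ?_).unique hXd
    filter_upwards [hc2] with s hs
    exact (h4 _ (hΛ.sub hs)).symm
  have hkey : ∀ v, ⟪P z.1 v, η⟫ = Hp H z (P z.1 v) a.2 := by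
    intro v
    have h5 : HasDerivAt (fun s => P (c s).1 v) 0 0 := by
      have := hPd.clm_apply (hasDerivAt_const (0 : ℝ) v)
      simpa using this
    have h6 : HasDerivAt (fun s => ⟪P (c s).1 v, (X (c s)).1⟫)
        (⟪P (c 0).1 v, η⟫ + ⟪(0 : E m), (X (c 0)).1⟫) 0 := h5.inner ℝ hXd
    have h7 : HasDerivAt (fun s => (((0 : E m), P (c s).1 v) : E m × E m)) ((0 : E m), (0 : E m)) 0 :=
      (hasDerivAt_const (0 : ℝ) (0 : E m)).prodMk h5
    have h8 := hDd.clm_apply h7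
    have h9 : (fun s => ⟪P (c s).1 v, (X (c s)).1⟫) =ᶠ[𝓝 0]
        fun s => fderiv ℝ H (c s) ((0 : E m), P (c s).1 v) := by
      filter_upwards [hc2] with s hs
      exact h3 _ (hΛ.sub hs) v
    have h10 := (h6.congr_of_eventuallyEq h9.symm).unique h8
    rw [hc3, inner_zero_left, add_zero] at h10
    rw [Hp_eq hH.hH, ← haa, h10]
    have h11 : (((0 : E m), (0 : E m)) : E m × E m) = 0 := rfl
    rw [h11, map_zero, add_zero]
  -- the sign
  have h5 : (0 : ℝ) ≤ Hp H z (-η) a.2 := by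
    have hl : Tendsto (fun j => -C * (‖(t j)⁻¹ • (b (ρ j)).1‖ * ‖(b (ρ j)).1‖)) atTop
        (𝓝 (-C * (‖-η‖ * ‖a.1‖))) :=
      (h2.norm.mul ((continuous_fst.tendsto _).comp hρb).norm).const_mul _
    rw [ha0, norm_zero, mul_zero, mul_zero] at hl
    have hrr : Tendsto (fun j => Hp H (u (ρ j)) ((t j)⁻¹ • (b (ρ j)).1) (b (ρ j)).2) atTop
        (𝓝 (Hp H z (-η) a.2)) := Hp_lim hH.hH hρu h2 ((continuous_snd.tendsto _).comp hρb)
    refine le_of_tendsto_of_tendsto hl hrr ?_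
    have h6 : ∀ᶠ j in atTop, ‖u (ρ j) - z‖ < r := by
      have h7 := (tendsto_iff_norm_sub_tendsto_zero.1 hρu)
      exact h7.eventually (gt_mem_nhds hr)
    filter_upwards [h6] with j hj
    have h7 := hC (u (ρ j)) (hu _) hj (b (ρ j)) (hb _)
    rw [Hp_smul hH.hH, norm_smul, norm_inv, Real.norm_of_nonneg (ht j).le]
    have h8 : -C * ((t j)⁻¹ * ‖(b (ρ j)).1‖ * ‖(b (ρ j)).1‖) =
        (t j)⁻¹ * (-C * ‖(b (ρ j)).1‖ ^ 2) := by ring
    rw [h8]
    exact mul_le_mul_of_nonneg_left h7 (inv_nonneg.2 (ht j).le)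
  have h6 : η = 0 := by
    have h7 := hkey η
    rw [hPη] at h7
    have h8 : Hp H z (-η) a.2 = - Hp H z η a.2 := by
      have := Hp_smul hH.hH z (-1) η a.2
      simpa using this
    rw [h8, ← h7, real_inner_self_eq_norm_sq] at h5
    have h9 : ‖η‖ ^ 2 = 0 := le_antisymm (by linarith) (sq_nonneg _)
    exact norm_eq_zero.1 (pow_eq_zero_iff (two_ne_zero) |>.1 h9)
  apply ha2
  apply hnd a.2 hta'
  intro v hv
  rw [Hp_symm hH.hH]
  have h7 := hkey v
  rw [(hP.tan z.1 hzN.1 v).1 hv, h6, inner_zero_right] at h7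
  exact h7.symm

end Pool.Agent.D0H84.NG
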